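import Pool.Agent.H13.Scr.Defs

/-!
# SCR module Amen: amenability of lamplighter-like groups

Paper proof.  For `n ≥ 1` put `N_n = closure {(s^k)⁻¹ t s^k : k < n}`; it is commutative and
generated by finitely many elements of order at most two, hence finite.  Put
`m_n(A) = (1/n) Σ_{k<n} #{a ∈ N_n : s^k a ∈ A} / #N_n`: a finitely additive probability measure with
values in `[0,1]`.  Let `m(A)` be the limit of `m_n(A)` along a non-principal ultrafilter
(`Filter.hyperfilter ℕ`); it is a finitely additive probability measure.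
* Invariance under `s`: `s^k a ∈ sA ↔ s^(k-1) a ∈ A`, so `|m_n(sA) - m_n(A)| ≤ 2/n → 0`.
* Invariance under `t`: for `k < n`, `s^k a ∈ tA ↔ t s^k a ∈ A ↔ s^k (((s^k)⁻¹ t s^k) a) ∈ A`
  (`t⁻¹ = t`), and `a ↦ ((s^k)⁻¹ t s^k) a` is a bijection of `N_n`; so `m_n(tA) = m_n(A)`.
The set of `g` with `m(gA) = m(A)` for all `A` is a subgroup containing `s` and `t`, so it is `G`.
-/

set_option autoImplicit false

namespace Pool.Agent.H13.Scr

open Filter Finset

namespace AmenAux

variable {G : Type} [Group G] (s t : G)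

/-- the conjugates of `t` -/
def cj (k : ℕ) : G := (s ^ k)⁻¹ * t * s ^ k

variable {s t}
variable (hc : ∀ i j : ℕ, Commute (cj s t i) (cj s t j))

/-- products of conjugates -/
noncomputable def pr (S : Finset ℕ) : G :=
  S.noncommProd (cj s t) (fun i _ j _ _ => hc i j)

lemma cj_sq (ht : t * t = 1) (k : ℕ) : cj s t k * cj s t k = 1 := by
  unfold cj
  calc (s ^ k)⁻¹ * t * s ^ k * ((s ^ k)⁻¹ * t * s ^ k) = (s ^ k)⁻¹ * (t * t) * s ^ k := by group
    _ = 1 := by rw [ht]; group

/-- toggling an element -/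
def tog (k : ℕ) (S : Finset ℕ) : Finset ℕ := if k ∈ S then S.erase k else insert k S

lemma tog_tog (k : ℕ) (S : Finset ℕ) : tog k (tog k S) = S := by
  unfold tog
  by_cases h : k ∈ S
  · rw [if_pos h, if_neg (Finset.notMem_erase k S), Finset.insert_erase h]
  · rw [if_neg h, if_pos (Finset.mem_insert_self k S), Finset.erase_insert h]

lemma tog_mem {k n : ℕ} (hk : k < n) {S : Finset ℕ} (hS : S ∈ (range n).powerset) :
    tog k S ∈ (range n).powerset := by
  rw [Finset.mem_powerset] at hS ⊢
  unfold tog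
  split_ifs
  · exact (Finset.erase_subset _ _).trans hS
  · exact Finset.insert_subset (Finset.mem_range.2 hk) hS

lemma pr_tog (ht : t * t = 1) (k : ℕ) (S : Finset ℕ) :
    cj s t k * pr hc S = pr hc (tog k S) := by
  unfold tog
  by_cases h : k ∈ S
  · rw [if_pos h]
    have h1 : pr hc S = cj s t k * pr hc (S.erase k) := by
      have h2 : pr hc (insert k (S.erase k)) = cj s t k * pr hc (S.erase k) :=
        Finset.noncommProd_insert_of_notMem (S.erase k) k _ _ (Finset.notMem_erase k S)
      rwa [Finset.insert_erase h] at h2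
    rw [h1, ← mul_assoc, cj_sq ht, one_mul]
  · rw [if_neg h]
    exact (Finset.noncommProd_insert_of_notMem S k _ _ h).symm

open Classical in
/-- the number of products in a set, at level `k` -/
noncomputable def cnt (n k : ℕ) (A : Set G) : ℝ :=
  ∑ S ∈ (range n).powerset, if s ^ k * pr hc S ∈ A then (1 : ℝ) else 0

/-- the approximate means -/
noncomputable def mn (n : ℕ) (A : Set G) : ℝ :=
  (∑ k ∈ range n, cnt hc n k A) / (n * 2 ^ n)

lemma cnt_nonneg (n k : ℕ) (A : Set G) : 0 ≤ cnt hc n k A := by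
  classical
  unfold cnt
  refine Finset.sum_nonneg fun S _ => ?_
  split_ifs
  · exact zero_le_one
  · exact le_rfl

lemma cnt_le (n k : ℕ) (A : Set G) : cnt hc n k A ≤ 2 ^ n := by
  classical
  unfold cnt
  refine (Finset.sum_le_card_nsmul _ _ 1 fun S _ => ?_).trans ?_
  · split_ifs
    · exact le_rfl
    · exact zero_le_one
  · rw [Finset.card_powerset, Finset.card_range, nsmul_eq_mul, mul_one]
    push_cast
    exact le_rfl

lemma cnt_univ (n k : ℕ) : cnt hc n k Set.univ = 2 ^ n := by
  classical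
  unfold cnt
  simp [Finset.card_powerset]

lemma cnt_union (n k : ℕ) {A B : Set G} (h : Disjoint A B) :
    cnt hc n k (A ∪ B) = cnt hc n k A + cnt hc n k B := by
  classical
  unfold cnt
  rw [← Finset.sum_add_distrib]
  refine Finset.sum_congr rfl fun S _ => ?_
  by_cases h1 : s ^ k * pr hc S ∈ A
  · have h2 : s ^ k * pr hc S ∉ B := fun h2 => Set.disjoint_left.1 h h1 h2
    simp [h1, h2]
  · by_cases h2 : s ^ k * pr hc S ∈ B
    · simp [h1, h2]
    · simp [h1, h2]

lemma mn_mem (n : ℕ) (A : Set G) : mn hc n A ∈ Set.Icc (0 : ℝ) 1 := by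
  unfold mn
  constructor
  · exact div_nonneg (Finset.sum_nonneg fun k _ => cnt_nonneg hc n k A) (by positivity)
  · refine div_le_one_of_le₀ ?_ (by positivity)
    refine (Finset.sum_le_card_nsmul _ _ (2 ^ n) fun k _ => cnt_le hc n k A).trans ?_
    rw [Finset.card_range, nsmul_eq_mul]

lemma mn_univ {n : ℕ} (hn : 1 ≤ n) : mn hc n Set.univ = 1 := by
  unfold mn
  simp only [cnt_univ, Finset.sum_const, Finset.card_range, nsmul_eq_mul]
  have h1 : (n : ℝ) ≠ 0 := by
    have : n ≠ 0 := by omega
    exact_mod_cast this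
  exact div_self (mul_ne_zero h1 (by positivity))

lemma mn_union (n : ℕ) {A B : Set G} (h : Disjoint A B) :
    mn hc n (A ∪ B) = mn hc n A + mn hc n B := by
  unfold mn
  rw [← add_div, ← Finset.sum_add_distrib]
  congr 1
  exact Finset.sum_congr rfl fun k _ => cnt_union hc n k h

lemma mn_t (ht : t * t = 1) (n : ℕ) (A : Set G) :
    mn hc n ((fun h => t * h) '' A) = mn hc n A := by
  classical
  unfold mn
  congr 1
  refine Finset.sum_congr rfl fun k hk => ?_
  rw [Finset.mem_range] at hk
  unfold cnt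
  refine Finset.sum_nbij' (tog k) (tog k) (fun S hS => tog_mem hk hS) (fun S hS => tog_mem hk hS)
    (fun S _ => tog_tog k S) (fun S _ => tog_tog k S) (fun S _ => ?_)
  have h1 : s ^ k * pr hc S ∈ (fun h => t * h) '' A ↔ s ^ k * pr hc (tog k S) ∈ A := by
    rw [Set.image_mul_left, Set.mem_preimage, ← pr_tog hc ht k S]
    have h2 : t⁻¹ * (s ^ k * pr hc S) = s ^ k * (cj s t k * pr hc S) := by
      have h3 : t⁻¹ = t := inv_eq_of_mul_eq_one_left ht
      rw [h3]
      unfold cj
      group
    rw [h2]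
  simp only [h1]

lemma mn_s {n : ℕ} (hn : 1 ≤ n) (A : Set G) :
    |mn hc n ((fun h => s * h) '' A) - mn hc n A| ≤ 1 / n := by
  classical
  obtain ⟨m, rfl⟩ : ∃ m, n = m + 1 := ⟨n - 1, by omega⟩
  unfold mn
  have h1 : ∀ k, cnt hc (m + 1) (k + 1) ((fun h => s * h) '' A) = cnt hc (m + 1) k A := by
    intro k
    unfold cnt
    refine Finset.sum_congr rfl fun S _ => ?_
    have h2 : s ^ (k + 1) * pr hc S ∈ (fun h => s * h) '' A ↔ s ^ k * pr hc S ∈ A := by
      rw [Set.image_mul_left, Set.mem_preimage]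
      have h3 : s⁻¹ * (s ^ (k + 1) * pr hc S) = s ^ k * pr hc S := by
        rw [pow_succ']
        group
      rw [h3]
    simp only [h2]
  rw [← sub_div, Finset.sum_range_succ', Finset.sum_range_succ]
  simp only [h1]
  have h4 := cnt_nonneg hc (m + 1) 0 ((fun h => s * h) '' A)
  have h5 := cnt_le hc (m + 1) 0 ((fun h => s * h) '' A)
  have h6 := cnt_nonneg hc (m + 1) m A
  have h7 := cnt_le hc (m + 1) m A
  have h8 : ∑ k ∈ range m, cnt hc (m + 1) k A + cnt hc (m + 1) 0 ((fun h => s * h) '' A) -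
      (∑ k ∈ range m, cnt hc (m + 1) k A + cnt hc (m + 1) m A) =
      cnt hc (m + 1) 0 ((fun h => s * h) '' A) - cnt hc (m + 1) m A := by ring
  rw [h8, abs_div, abs_of_pos (by positivity : (0 : ℝ) < ((m + 1 : ℕ) : ℝ) * 2 ^ (m + 1)),
    div_le_div_iff₀ (by positivity) (by positivity), one_mul]
  have h9 : |cnt hc (m + 1) 0 ((fun h => s * h) '' A) - cnt hc (m + 1) m A| ≤ 2 ^ (m + 1) :=
    abs_le.2 ⟨by linarith, by linarith⟩
  calc _ ≤ 2 ^ (m + 1) * ((m + 1 : ℕ) : ℝ) :=
        mul_le_mul_of_nonneg_right h9 (by positivity)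
    _ = _ := by ring

lemma exists_lim (A : Set G) :
    ∃ x : ℝ, Tendsto (fun n => mn hc n A) (hyperfilter ℕ : Filter ℕ) (nhds x) := by
  have h1 : ((hyperfilter ℕ).map (fun n => mn hc n A) : Filter ℝ) ≤ 𝓟 (Set.Icc (0 : ℝ) 1) := by
    rw [Filter.le_principal_iff]
    refine Filter.mem_map.2 (Filter.mem_of_superset Filter.univ_mem fun n _ => ?_)
    exact mn_mem hc n A
  obtain ⟨x, -, hx⟩ := isCompact_Icc.ultrafilter_le_nhds _ h1
  exact ⟨x, hx⟩

end AmenAux

open AmenAux in
theorem amenable_of_commuting {G : Type} [Group G] (s t : G)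
    (hgen : Subgroup.closure {s, t} = ⊤) (ht : t * t = 1)
    (hc : ∀ i j : ℕ, Commute ((s ^ i)⁻¹ * t * s ^ i) ((s ^ j)⁻¹ * t * s ^ j)) :
    Amenable G := by
  have hc' : ∀ i j : ℕ, Commute (cj s t i) (cj s t j) := hc
  choose m hm using exists_lim hc'
  have hle : (hyperfilter ℕ : Filter ℕ) ≤ atTop := Nat.hyperfilter_le_atTop
  have hge : ∀ᶠ n : ℕ in (hyperfilter ℕ : Filter ℕ), 1 ≤ n := hle (eventually_ge_atTop 1)
  have hinvt : ∀ A, m ((fun h => t * h) '' A) = m A := by
    intro A
    refine tendsto_nhds_unique (hm _) ?_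
    refine (hm A).congr fun n => ?_
    exact (mn_t hc' ht n A).symm
  have hinvs : ∀ A, m ((fun h => s * h) '' A) = m A := by
    intro A
    have h1 : Tendsto (fun n => mn hc' n ((fun h => s * h) '' A) - mn hc' n A)
        (hyperfilter ℕ : Filter ℕ) (nhds 0) := by
      refine squeeze_zero_norm' (a := fun n : ℕ => 1 / (n : ℝ)) ?_
        (tendsto_one_div_atTop_nhds_zero_nat.mono_left hle)
      filter_upwards [hge] with n hn
      exact mn_s hc' hn A
    have h2 := (hm ((fun h => s * h) '' A)).sub (hm A)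
    have h3 := tendsto_nhds_unique h2 h1
    linarith
  let H : Subgroup G :=
    { carrier := {g | ∀ A, m ((fun h => g * h) '' A) = m A}
      one_mem' := by
        intro A
        simp
      mul_mem' := by
        intro a b ha hb A
        have h1 : (fun h => a * b * h) '' A = (fun h => a * h) '' ((fun h => b * h) '' A) := by
          rw [Set.image_image]
          refine Set.image_congr' fun h => ?_
          rw [mul_assoc]
        rw [h1, ha, hb]
      inv_mem' := by
        intro a ha A
        rw [← ha ((fun h => a⁻¹ * h) '' A), Set.image_image]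
        simp }
  have hH : H = ⊤ := by
    rw [eq_top_iff, ← hgen, Subgroup.closure_le]
    rintro g (rfl | hg)
    · exact hinvs
    · rw [Set.mem_singleton_iff] at hg
      rw [hg]
      exact hinvt
  refine ⟨m, fun A => ?_, ?_, fun A B hAB => ?_, fun g A => ?_⟩
  · exact ge_of_tendsto' (hm A) fun n => (mn_mem hc' n A).1
  · refine tendsto_nhds_unique (hm Set.univ) ?_
    refine Tendsto.congr' ?_ (tendsto_const_nhds (x := (1 : ℝ)))
    filter_upwards [hge] with n hn
    exact (mn_univ hc' hn).symm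
  · refine tendsto_nhds_unique (hm _) ?_
    refine ((hm A).add (hm B)).congr fun n => ?_
    exact (mn_union hc' n hAB).symm
  · have h1 : g ∈ H := by rw [hH]; exact Subgroup.mem_top g
    exact h1 A

end Pool.Agent.H13.Scr
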