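import Pool.Agent.H13.Scr.Defs

/-!
# SCR module Approx: homeomorphisms close to the projection, and uniform continuity on cylinders

* `exists_homeo n`: first, by induction on `n`, there is `e : ℕ ⊕ ℕ ≃ ℕ` with `e (inl i) = i` for
  `i < n` (start from any equivalence; compose with `Equiv.swap (e (inl n)) n`).  Then
  `Cantor × Cantor ≃ₜ (ℕ ⊕ ℕ → Bool) ≃ₜ Cantor` (reindexing by `e`) is a homeomorphism keeping the
  first `n` coordinates of the first factor, and `Bool × (Cantor × Bool) ≃ₜ Cantor` (put the two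
  bits in front; or reindex `Unit ⊕ (ℕ ⊕ Unit) ≃ ℕ`).
* `cylinder_unif`: if it fails, there are `x_n, x'_n` agreeing on the first `n` coordinates with
  `|f x_n - f x'_n| > η`; along an ultrafilter (or subsequence) `x_n → x`, and then `x'_n → x`
  (coordinatewise), contradiction with continuity of `f`.
-/

set_option autoImplicit false

namespace Pool.Agent.H13.Scr

/-- the index type of the product `Cantor × Bool × M` -/
private abbrev Idx : Type := ℕ ⊕ (Unit ⊕ (ℕ ⊕ Unit))

private lemma exists_index_equiv (n : ℕ) : ∃ e : ℕ ≃ Idx, ∀ i < n, e i = Sum.inl i := by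
  induction n with
  | zero =>
    have : Denumerable Idx := Denumerable.ofEncodableOfInfinite Idx
    exact ⟨(Denumerable.eqv Idx).symm, fun i hi => absurd hi (Nat.not_lt_zero i)⟩
  | succ n ih =>
    obtain ⟨e, he⟩ := ih
    refine ⟨(Equiv.swap n (e.symm (Sum.inl n))).trans e, ?_⟩
    intro i hi
    rcases Nat.lt_succ_iff_lt_or_eq.mp hi with h | h
    · have h1 : i ≠ n := Nat.ne_of_lt h
      have h2 : i ≠ e.symm (Sum.inl n) := by
        intro h3
        have h4 : e i = Sum.inl n := by rw [h3, Equiv.apply_symm_apply]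
        rw [he i h] at h4
        exact h1 (Sum.inl_injective h4)
      rw [Equiv.trans_apply, Equiv.swap_apply_of_ne_of_ne h1 h2]
      exact he i h
    · subst h
      rw [Equiv.trans_apply, Equiv.swap_apply_left, Equiv.apply_symm_apply]

theorem exists_homeo (n : ℕ) : ∃ θ : Cantor × Bool × M ≃ₜ Cantor,
    ∀ (p : Cantor × Bool × M), ∀ i < n, θ p i = p.1 i := by
  obtain ⟨e, he⟩ := exists_index_equiv n
  refine ⟨{
    toFun := fun p k => Sum.elim p.1 (Sum.elim (fun _ => p.2.1)
      (Sum.elim p.2.2.1 (fun _ => p.2.2.2))) (e k)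
    invFun := fun c => (fun i => c (e.symm (Sum.inl i)),
      c (e.symm (Sum.inr (Sum.inl ()))),
      (fun i => c (e.symm (Sum.inr (Sum.inr (Sum.inl i)))),
       c (e.symm (Sum.inr (Sum.inr (Sum.inr ()))))))
    left_inv := ?_
    right_inv := ?_
    continuous_toFun := ?_
    continuous_invFun := ?_ }, ?_⟩
  · rintro ⟨x, b, y, c⟩
    simp
  · intro c
    funext k
    obtain ⟨j, rfl⟩ := e.symm.surjective k
    rcases j with i | ⟨⟩ | i | ⟨⟩ <;> simp
  · refine continuous_pi fun k => ?_
    rcases e k with i | u | i | u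
    · simp only [Sum.elim_inl]
      fun_prop
    · simp only [Sum.elim_inl, Sum.elim_inr]
      fun_prop
    · simp only [Sum.elim_inl, Sum.elim_inr]
      fun_prop
    · simp only [Sum.elim_inr]
      fun_prop
  · fun_prop
  · intro p i hi
    change Sum.elim p.1 (Sum.elim (fun _ => p.2.1)
      (Sum.elim p.2.2.1 (fun _ => p.2.2.2))) (e i) = p.1 i
    rw [he i hi, Sum.elim_inl]

theorem cylinder_unif (f : CC) {η : ℝ} (hη : 0 < η) : ∃ n₀ : ℕ, ∀ n ≥ n₀, ∀ x x' : Cantor,
    (∀ i < n, x i = x' i) → |f x - f x'| ≤ η := by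
  by_contra hcon
  push Not at hcon
  choose N hN x x' hxx' hfx using hcon
  obtain ⟨a, φ, hφ, ha⟩ := CompactSpace.tendsto_subseq x
  have ha' : Filter.Tendsto (x' ∘ φ) Filter.atTop (nhds a) := by
    rw [tendsto_pi_nhds] at ha ⊢
    intro i
    refine (ha i).congr' ?_
    filter_upwards [Filter.eventually_gt_atTop i] with k hk
    exact hxx' (φ k) i (lt_of_lt_of_le hk ((hφ.id_le k).trans (hN (φ k))))
  have h1 : Filter.Tendsto (fun k => f (x (φ k))) Filter.atTop (nhds (f a)) :=
    (f.continuous.tendsto a).comp ha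
  have h2 : Filter.Tendsto (fun k => f (x' (φ k))) Filter.atTop (nhds (f a)) :=
    (f.continuous.tendsto a).comp ha'
  have h3 : Filter.Tendsto (fun k => |f (x (φ k)) - f (x' (φ k))|) Filter.atTop (nhds 0) := by
    have := (h1.sub h2).abs
    simpa using this
  obtain ⟨k, hk⟩ := (h3.eventually (gt_mem_nhds hη)).exists
  exact absurd (hfx (φ k)) (not_lt.mpr hk.le)

end Pool.Agent.H13.Scr
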