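import Pool.Agent.H13.Scr.Defs

/-!
# SCR module BaireAct: Act G and its positive part are Baire spaces

Let `G` be countable and `d` a dense sequence of the separable complete space
`CC = C(Cantor, ℝ)`.  The map `Φ : Act G → (G → ℕ → CC)`, `Φ α g n = α(g) (d n)`, is a closed
embedding, so `Act G` is Polish, hence Baire.  `positive G` is closed in `Act G`.
-/

set_option autoImplicit false

namespace Pool.Agent.H13.Scr

open Topology Filter

lemma continuous_at_apply {G : Type} [Group G] (g : G) (f : CC) :
    Continuous (fun α : Act G => α.at g f) := by
  have h : Continuous (fun (α : Act G) (g : G) (f : CC) => α.at g f) := continuous_induced_dom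
  exact (continuous_apply f).comp ((continuous_apply g).comp h)

theorem isClosed_positive (G : Type) [Group G] : IsClosed (positive G) := by
  have h : positive G = ⋂ (g : G) (f : CC) (_ : 0 ≤ f) (x : Cantor),
      {α : Act G | 0 ≤ (α.at g f) x} := by
    ext α
    simp only [positive, Set.mem_ofPred_eq, Set.mem_iInter]
    exact Iff.rfl
  rw [h]
  refine isClosed_iInter fun g => isClosed_iInter fun f => isClosed_iInter fun _ =>
    isClosed_iInter fun x => ?_
  have hc : Continuous (fun α : Act G => (α.at g f) x) :=
    (continuous_eval_const x).comp (continuous_at_apply g f)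
  exact isClosed_Ici.preimage hc

/-- The evaluation of an action on a dense sequence. -/
noncomputable def ev (G : Type) [Group G] (α : Act G) (g : G) (n : ℕ) : CC :=
  α.at g (TopologicalSpace.denseSeq CC n)

lemma continuous_ev (G : Type) [Group G] : Continuous (ev G) :=
  continuous_pi fun g => continuous_pi fun _ => continuous_at_apply g _

lemma Act.ext' {G : Type} [Group G] {α β : Act G} (h : ∀ g f, α.at g f = β.at g f) : α = β := by
  cases α with
  | mk a =>
    cases β with
    | mk b =>
      congr 1
      ext g f : 2
      exact h g f

lemma injective_ev (G : Type) [Group G] : Function.Injective (ev G) := by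
  intro α β h
  apply Act.ext'
  intro g f
  have h1 : (fun f => α.at g f) = (fun f => β.at g f) := by
    apply (TopologicalSpace.denseRange_denseSeq CC).equalizer (α.at g).continuous
      (β.at g).continuous
    funext n
    exact congrFun (congrFun h g) n
  exact congrFun h1 f

lemma exists_close (f : CC) {ε : ℝ} (hε : 0 < ε) :
    ∃ n : ℕ, dist f (TopologicalSpace.denseSeq CC n) < ε :=
  (TopologicalSpace.denseRange_denseSeq CC).exists_dist_lt f hε

lemma isInducing_ev (G : Type) [Group G] : IsInducing (ev G) := by
  constructor
  apply le_antisymm (continuous_iff_le_induced.mp (continuous_ev G))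
  change TopologicalSpace.induced (ev G) _ ≤
    TopologicalSpace.induced (fun (α : Act G) (g : G) (f : CC) => α.at g f) _
  let τ : TopologicalSpace (Act G) := TopologicalSpace.induced (ev G) inferInstance
  rw [← continuous_iff_le_induced]
  refine continuous_pi fun g => continuous_pi fun f => ?_
  rw [continuous_iff_continuousAt]
  intro α₀
  rw [ContinuousAt, Metric.tendsto_nhds]
  intro ε hε
  obtain ⟨n, hn⟩ := exists_close f (by positivity : 0 < ε / 3)
  have h0 : Continuous (ev G) := continuous_induced_dom
  have hc : Continuous (fun α : Act G => ev G α g n) :=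
    (continuous_apply (A := fun _ : ℕ => CC) n).comp
      ((continuous_apply (A := fun _ : G => ℕ → CC) g).comp h0)
  have h1 := Metric.tendsto_nhds.mp (hc.continuousAt (x := α₀)) (ε / 3) (by positivity : 0 < ε / 3)
  filter_upwards [h1] with α hα
  have h2 : dist (α.at g f) (α.at g (TopologicalSpace.denseSeq CC n)) < ε / 3 := by
    rw [LinearIsometryEquiv.dist_map]; exact hn
  have h3 : dist (α₀.at g f) (α₀.at g (TopologicalSpace.denseSeq CC n)) < ε / 3 := by
    rw [LinearIsometryEquiv.dist_map]; exact hn
  have h4 : dist (α.at g (TopologicalSpace.denseSeq CC n))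
      (α₀.at g (TopologicalSpace.denseSeq CC n)) < ε / 3 := hα
  rw [dist_comm] at h3
  calc dist (α.at g f) (α₀.at g f) ≤ _ := dist_triangle4 _ (α.at g (TopologicalSpace.denseSeq CC n))
        (α₀.at g (TopologicalSpace.denseSeq CC n)) _
    _ < ε := by linarith

lemma isClosed_range_ev (G : Type) [Group G] [Countable G] : IsClosed (Set.range (ev G)) := by
  apply isClosed_of_closure_subset
  intro x hx
  rw [mem_closure_iff_seq_limit] at hx
  obtain ⟨y, hy, hlim⟩ := hx
  choose u hu using hy
  have hlim' : ∀ g n, Tendsto (fun k => (u k).at g (TopologicalSpace.denseSeq CC n)) atTop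
      (𝓝 (x g n)) := by
    intro g n
    have h1 := tendsto_pi_nhds.mp (tendsto_pi_nhds.mp hlim g) n
    refine h1.congr fun k => ?_
    rw [← hu k]
    rfl
  have hconv : ∀ g f, ∃ y : CC, Tendsto (fun k => (u k).at g f) atTop (𝓝 y) := by
    intro g f
    apply cauchySeq_tendsto_of_complete
    rw [Metric.cauchySeq_iff]
    intro ε hε
    obtain ⟨n, hn⟩ := exists_close f (by positivity : 0 < ε / 3)
    obtain ⟨N, hN⟩ := Metric.cauchySeq_iff.mp (hlim' g n).cauchySeq (ε / 3)
      (by positivity : 0 < ε / 3)
    refine ⟨N, fun k hk l hl => ?_⟩
    have h2 : dist ((u k).at g f) ((u k).at g (TopologicalSpace.denseSeq CC n)) < ε / 3 := by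
      rw [LinearIsometryEquiv.dist_map]; exact hn
    have h3 : dist ((u l).at g f) ((u l).at g (TopologicalSpace.denseSeq CC n)) < ε / 3 := by
      rw [LinearIsometryEquiv.dist_map]; exact hn
    have h4 := hN k hk l hl
    rw [dist_comm] at h3
    calc dist ((u k).at g f) ((u l).at g f) ≤ _ :=
          dist_triangle4 _ ((u k).at g (TopologicalSpace.denseSeq CC n))
            ((u l).at g (TopologicalSpace.denseSeq CC n)) _
      _ < ε := by linarith
  choose T hT using hconv
  have hadd : ∀ g f f', T g (f + f') = T g f + T g f' := by
    intro g f f'
    refine tendsto_nhds_unique (hT g (f + f')) (((hT g f).add (hT g f')).congr fun k => ?_)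
    rw [map_add]
  have hsmul : ∀ g (c : ℝ) f, T g (c • f) = c • T g f := by
    intro g c f
    refine tendsto_nhds_unique (hT g (c • f)) (((hT g f).const_smul c).congr fun k => ?_)
    rw [map_smul]
  have hnorm : ∀ g f, ‖T g f‖ = ‖f‖ := by
    intro g f
    refine tendsto_nhds_unique (hT g f).norm ((tendsto_const_nhds (x := ‖f‖)).congr fun k => ?_)
    rw [LinearIsometryEquiv.norm_map]
  have hone : ∀ f, T 1 f = f := by
    intro f
    refine tendsto_nhds_unique (hT 1 f) ((tendsto_const_nhds (x := f)).congr fun k => ?_)
    rw [Act.at_one]
  have hmul : ∀ g h f, T (g * h) f = T g (T h f) := by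
    intro g h f
    refine tendsto_nhds_unique (hT (g * h) f) ?_
    have h1 : Tendsto (fun k => (u k).at g (T h f) + (u k).at g ((u k).at h f - T h f)) atTop
        (𝓝 (T g (T h f) + 0)) := by
      apply (hT g (T h f)).add
      rw [tendsto_zero_iff_norm_tendsto_zero]
      have h2 := tendsto_iff_norm_sub_tendsto_zero.mp (hT h f)
      refine h2.congr fun k => ?_
      rw [LinearIsometryEquiv.norm_map]
    rw [add_zero] at h1
    refine h1.congr fun k => ?_
    rw [map_sub, Act.at_mul]
    abel
  let E : G → (CC ≃ₗᵢ[ℝ] CC) := fun g =>
    { toFun := T g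
      invFun := T g⁻¹
      left_inv := fun f => by rw [← hmul, inv_mul_cancel, hone]
      right_inv := fun f => by rw [← hmul, mul_inv_cancel, hone]
      map_add' := hadd g
      map_smul' := hsmul g
      norm_map' := hnorm g }
  let β : Act G := ⟨{ toFun := E
                      map_one' := by
                        ext f : 1
                        exact hone f
                      map_mul' := by
                        intro g h
                        ext f : 1
                        exact hmul g h f }⟩
  refine ⟨β, ?_⟩
  funext g n
  exact tendsto_nhds_unique (hT g (TopologicalSpace.denseSeq CC n)) (hlim' g n)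

lemma isClosedEmbedding_ev (G : Type) [Group G] [Countable G] : IsClosedEmbedding (ev G) :=
  ⟨⟨isInducing_ev G, injective_ev G⟩, isClosed_range_ev G⟩

lemma polishSpace_cc : PolishSpace CC := by
  have h1 : SecondCountableTopology CC := UniformSpace.secondCountable_of_separable CC
  infer_instance

lemma polishSpace_act (G : Type) [Group G] [Countable G] : PolishSpace (Act G) := by
  have h1 := polishSpace_cc
  exact (isClosedEmbedding_ev G).polishSpace

lemma baireSpace_of_polish (X : Type) [TopologicalSpace X] [PolishSpace X] : BaireSpace X := by
  let _ := TopologicalSpace.upgradeIsCompletelyMetrizable X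
  infer_instance

theorem baire_act (G : Type) [Group G] [Countable G] : BaireSpace (Act G) := by
  have := polishSpace_act G
  exact baireSpace_of_polish _

theorem baire_positive (G : Type) [Group G] [Countable G] : BaireSpace (positive G) := by
  have := polishSpace_act G
  have : PolishSpace (positive G) := (isClosed_positive G).polishSpace
  exact baireSpace_of_polish _

end Pool.Agent.H13.Scr
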