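import Mathlib

/-!
# Generic invariant strictly convex renormings of `C(2^ℕ)`: definitions
-/

set_option autoImplicit false

noncomputable section

namespace Pool.Agent.H13.Scr

open Topology

/-- The Cantor space `2^ℕ`. -/
abbrev Cantor : Type := ℕ → Bool

/-- The real Banach space `C(2^ℕ)` with the supremum norm. -/
abbrev CC : Type := C(Cantor, ℝ)

/-- `Act_G(C(2^ℕ))`: the actions of `G` on `C(2^ℕ)` by surjective linear isometries, that is the
homomorphisms from `G` to the group of surjective linear isometries. -/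
structure Act (G : Type) [Group G] where
  /-- the homomorphism -/
  hom : G →* (CC ≃ₗᵢ[ℝ] CC)

/-- The surjective linear isometry by which `g` acts. -/
def Act.at {G : Type} [Group G] (α : Act G) (g : G) : CC ≃ₗᵢ[ℝ] CC := α.hom g

/-- The topology of `Act_G(C(2^ℕ))`: the product over `g : G` of the strong operator topologies,
that is the coarsest topology for which all maps `α ↦ α(g) f` are continuous. -/
instance (G : Type) [Group G] : TopologicalSpace (Act G) :=
  TopologicalSpace.induced (fun (α : Act G) (g : G) (f : CC) => α.at g f) inferInstance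

/-- `Act_G^+(C(2^ℕ))`: the actions by positive (lattice) isometries, as a subset of
`Act_G(C(2^ℕ))` (with the subspace topology). -/
def positive (G : Type) [Group G] : Set (Act G) :=
  {α | ∀ (g : G) (f : CC), 0 ≤ f → 0 ≤ α.at g f}

/-- `N` is a strictly convex norm on `C(2^ℕ)` which is equivalent to the supremum norm. -/
structure IsStrictlyConvexRenorming (N : CC → ℝ) : Prop where
  /-- triangle inequality -/
  add_le : ∀ x y, N (x + y) ≤ N x + N y
  /-- homogeneity -/
  smul : ∀ (c : ℝ) (x : CC), N (c • x) = |c| * N x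
  /-- equivalence with the supremum norm (this also gives definiteness) -/
  equivalent : ∃ c C : ℝ, 0 < c ∧ 0 < C ∧ ∀ x, c * ‖x‖ ≤ N x ∧ N x ≤ C * ‖x‖
  /-- strict convexity -/
  strict : ∀ x y, x ≠ y → N x = N y → N ((1 / 2 : ℝ) • (x + y)) < N x

/-- The action `α` admits a `G`-invariant strictly convex renorming. -/
def Renormable {G : Type} [Group G] (α : Act G) : Prop :=
  ∃ N : CC → ℝ, IsStrictlyConvexRenorming N ∧ ∀ (g : G) (x : CC), N (α.at g x) = N x

/-- Amenability (von Neumann): there is a left invariant finitely additive probability measure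
defined on all subsets of the group. -/
def Amenable (G : Type) [Group G] : Prop :=
  ∃ m : Set G → ℝ, (∀ A, 0 ≤ m A) ∧ m Set.univ = 1 ∧
    (∀ A B, Disjoint A B → m (A ∪ B) = m A + m B) ∧
    ∀ (g : G) (A : Set G), m ((fun h => g * h) '' A) = m A

/-- The value is `0`, `1` or `-1`. -/
def SignValued {K : Type} (z : K → ℝ) : Prop := ∀ x, z x = 0 ∨ z x = 1 ∨ z x = -1

/-- The set of actions for which some function `z` with values in `{0, 1, -1}` satisfies
`z = (α(g₁) z + α(g₂) z) / 2` and `α(g₁) z ≠ α(g₂) z`. -/
def certified {G : Type} [Group G] (g₁ g₂ : G) : Set (Act G) :=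
  {α | ∃ z : CC, SignValued z ∧ z = (1 / 2 : ℝ) • (α.at g₁ z + α.at g₂ z) ∧
    α.at g₁ z ≠ α.at g₂ z}

lemma Act.at_mul {G : Type} [Group G] (α : Act G) (g h : G) (f : CC) :
    α.at (g * h) f = α.at g (α.at h f) := by
  unfold Act.at
  rw [map_mul]
  rfl

lemma Act.at_one {G : Type} [Group G] (α : Act G) (f : CC) : α.at 1 f = f := by
  unfold Act.at
  rw [map_one]
  rfl

/-- The phase space of the system used below. -/
abbrev M : Type := Cantor × Bool

/-- The slice `x ↦ F(x, ε, y)`. -/
def slice {Y : Type} [TopologicalSpace Y] (F : C(Cantor × Bool × Y, ℝ)) (ε : Bool) (y : Y) : CC :=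
  ⟨fun x => F (x, ε, y), by fun_prop⟩

@[simp] lemma slice_apply {Y : Type} [TopologicalSpace Y] (F : C(Cantor × Bool × Y, ℝ))
    (ε : Bool) (y : Y) (x : Cantor) : slice F ε y x = F (x, ε, y) := rfl

end Pool.Agent.H13.Scr
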