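import Pool.Agent.H13.Scr.Isom

/-!
# SCR module Product: the product action on C(Cantor × Bool × Y)

For `α : Act G` and `β : G →* (Y ≃ₜ Y)` put `h_g = α.at g 1` (values `±1` by `abs_map_one`) and
`γ(g)F (x,ε,y) = (1 + h_g(x))/2 · (α(g) (slice F ε y'))(x) + (1 - h_g(x))/2 · (α(g) (slice F (!ε) y'))(x)`
with `y' = β(g⁻¹) y`.
-/

set_option autoImplicit false
set_option linter.unusedSectionVars false

noncomputable section

namespace Pool.Agent.H13.Scr

variable {G : Type} [Group G] {Y : Type} [TopologicalSpace Y] [CompactSpace Y]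

omit [CompactSpace Y] in
lemma continuous_slice (F : C(Cantor × Bool × Y, ℝ)) :
    Continuous (fun p : Bool × Y => slice F p.1 p.2) := by
  have h : Continuous (fun q : (Bool × Y) × Cantor => F (q.2, q.1.1, q.1.2)) := by fun_prop
  exact ContinuousMap.continuous_of_continuous_uncurry _ h

lemma one_cases' (α : Act G) (g : G) (x : Cantor) :
    α.at g 1 x = 1 ∨ α.at g 1 x = -1 := by
  have h := abs_map_one (α.at g) x
  rcases abs_cases (α.at g 1 x) with h1 | h1
  · left; rw [← h1.1, h]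
  · right; linarith [h1.1, h]

/-- The product operator, as a function. -/
def prodFun (α : Act G) (β : G →* (Y ≃ₜ Y)) (g : G) (F : C(Cantor × Bool × Y, ℝ)) :
    C(Cantor × Bool × Y, ℝ) where
  toFun p := (1 + α.at g 1 p.1) / 2 * α.at g (slice F p.2.1 (β g⁻¹ p.2.2)) p.1 +
          (1 - α.at g 1 p.1) / 2 * α.at g (slice F (!p.2.1) (β g⁻¹ p.2.2)) p.1
  continuous_toFun := by
    have h0 : Continuous (fun p : Cantor × Bool × Y => α.at g 1 p.1) := by fun_prop
    have h1 : Continuous (fun p : Cantor × Bool × Y => slice F p.2.1 (β g⁻¹ p.2.2)) :=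
      (continuous_slice F).comp (f := fun p : Cantor × Bool × Y => (p.2.1, β g⁻¹ p.2.2))
        (by fun_prop)
    have hnot : Continuous (fun b : Bool => !b) := continuous_of_discreteTopology
    have h2 : Continuous (fun p : Cantor × Bool × Y => slice F (!p.2.1) (β g⁻¹ p.2.2)) :=
      (continuous_slice F).comp (f := fun p : Cantor × Bool × Y => (!p.2.1, β g⁻¹ p.2.2))
        (by fun_prop)
    have h3 : Continuous (fun p : Cantor × Bool × Y =>
        α.at g (slice F p.2.1 (β g⁻¹ p.2.2)) p.1) :=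
      ContinuousEval.continuous_eval.comp (((α.at g).continuous.comp h1).prodMk continuous_fst)
    have h4 : Continuous (fun p : Cantor × Bool × Y =>
        α.at g (slice F (!p.2.1) (β g⁻¹ p.2.2)) p.1) :=
      ContinuousEval.continuous_eval.comp (((α.at g).continuous.comp h2).prodMk continuous_fst)
    fun_prop

omit [CompactSpace Y] in
lemma prodFun_apply (α : Act G) (β : G →* (Y ≃ₜ Y)) (g : G) (F : C(Cantor × Bool × Y, ℝ))
    (x : Cantor) (ε : Bool) (y : Y) : prodFun α β g F (x, ε, y) =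
      (1 + α.at g 1 x) / 2 * α.at g (slice F ε (β g⁻¹ y)) x +
          (1 - α.at g 1 x) / 2 * α.at g (slice F (!ε) (β g⁻¹ y)) x := rfl

lemma prodFun_add (α : Act G) (β : G →* (Y ≃ₜ Y)) (g : G) (F F' : C(Cantor × Bool × Y, ℝ)) :
    prodFun α β g (F + F') = prodFun α β g F + prodFun α β g F' := by
  ext ⟨x, ε, y⟩
  have h : ∀ δ y', slice (F + F') δ y' = slice F δ y' + slice F' δ y' := fun δ y' => rfl
  rw [ContinuousMap.add_apply, prodFun_apply, prodFun_apply, prodFun_apply, h, h, map_add, map_add,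
    ContinuousMap.add_apply, ContinuousMap.add_apply]
  ring

lemma prodFun_smul (α : Act G) (β : G →* (Y ≃ₜ Y)) (g : G) (c : ℝ)
    (F : C(Cantor × Bool × Y, ℝ)) : prodFun α β g (c • F) = c • prodFun α β g F := by
  ext ⟨x, ε, y⟩
  have h : ∀ δ y', slice (c • F) δ y' = c • slice F δ y' := fun δ y' => rfl
  rw [ContinuousMap.smul_apply, prodFun_apply, prodFun_apply, h, h, map_smul, map_smul,
    ContinuousMap.smul_apply, ContinuousMap.smul_apply, smul_eq_mul, smul_eq_mul, smul_eq_mul]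
  ring

lemma norm_slice_le (F : C(Cantor × Bool × Y, ℝ)) (δ : Bool) (y : Y) : ‖slice F δ y‖ ≤ ‖F‖ :=
  (ContinuousMap.norm_le _ (norm_nonneg _)).2 fun x => F.norm_coe_le_norm (x, δ, y)

lemma prodFun_norm_le (α : Act G) (β : G →* (Y ≃ₜ Y)) (g : G) (F : C(Cantor × Bool × Y, ℝ)) :
    ‖prodFun α β g F‖ ≤ ‖F‖ := by
  refine (ContinuousMap.norm_le _ (norm_nonneg _)).2 ?_
  rintro ⟨x, ε, y⟩
  have key : ∀ δ : Bool, ‖α.at g (slice F δ (β g⁻¹ y)) x‖ ≤ ‖F‖ := fun δ =>
    le_trans ((α.at g (slice F δ (β g⁻¹ y))).norm_coe_le_norm x) (by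
      rw [LinearIsometryEquiv.norm_map]; exact norm_slice_le F δ _)
  rw [prodFun_apply]
  rcases one_cases' α g x with h | h
  · rw [h]
    have h4 : (1 + 1 : ℝ) / 2 * α.at g (slice F ε (β g⁻¹ y)) x +
        (1 - 1) / 2 * α.at g (slice F (!ε) (β g⁻¹ y)) x =
        α.at g (slice F ε (β g⁻¹ y)) x := by ring
    rw [h4]; exact key ε
  · rw [h]
    have h4 : (1 + -1 : ℝ) / 2 * α.at g (slice F ε (β g⁻¹ y)) x +
        (1 - -1) / 2 * α.at g (slice F (!ε) (β g⁻¹ y)) x =
        α.at g (slice F (!ε) (β g⁻¹ y)) x := by ring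
    rw [h4]; exact key (!ε)

lemma prodFun_one (α : Act G) (β : G →* (Y ≃ₜ Y)) (F : C(Cantor × Bool × Y, ℝ)) :
    prodFun α β 1 F = F := by
  ext ⟨x, ε, y⟩
  rw [prodFun_apply, Act.at_one, Act.at_one, Act.at_one]
  simp

lemma prodFun_mul (α : Act G) (β : G →* (Y ≃ₜ Y)) (g g' : G) (F : C(Cantor × Bool × Y, ℝ)) :
    prodFun α β (g * g') F = prodFun α β g (prodFun α β g' F) := by
  ext ⟨x, ε, y⟩
  have hy : β (g * g')⁻¹ y = β g'⁻¹ (β g⁻¹ y) := by
    rw [mul_inv_rev, map_mul]; rfl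
  -- the slice of the inner function
  have hs : ∀ (δ : Bool) (y' : Y), slice (prodFun α β g' F) δ y' =
      (1 / 2 : ℝ) • (α.at g' (slice F δ (β g'⁻¹ y')) + α.at g' (slice F (!δ) (β g'⁻¹ y'))) +
      (1 / 2 : ℝ) • (α.at g' 1 *
        (α.at g' (slice F δ (β g'⁻¹ y')) - α.at g' (slice F (!δ) (β g'⁻¹ y')))) := by
    intro δ y'
    ext x'
    rw [slice_apply, prodFun_apply]
    simp only [ContinuousMap.add_apply, ContinuousMap.smul_apply, ContinuousMap.mul_apply,
      ContinuousMap.sub_apply, smul_eq_mul]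
    ring
  have hT : ∀ (δ : Bool), α.at g (slice (prodFun α β g' F) δ (β g⁻¹ y)) x =
      1 / 2 * (α.at (g * g') (slice F δ (β (g * g')⁻¹ y)) x +
        α.at (g * g') (slice F (!δ) (β (g * g')⁻¹ y)) x) +
      1 / 2 * (α.at g 1 x * α.at (g * g') 1 x *
        (α.at (g * g') (slice F δ (β (g * g')⁻¹ y)) x -
        α.at (g * g') (slice F (!δ) (β (g * g')⁻¹ y)) x)) := by
    intro δ
    rw [hs, hy, map_add, map_smul, map_smul, map_add]
    simp only [ContinuousMap.add_apply, ContinuousMap.smul_apply, smul_eq_mul]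
    rw [map_mul_of_abs_one (α.at g) _ _ (fun x => abs_map_one (α.at g') x), map_sub,
      ContinuousMap.sub_apply, Act.at_mul, Act.at_mul, Act.at_mul]
  rw [prodFun_apply, prodFun_apply, hT, hT, Bool.not_not]
  rcases one_cases' α g x with h | h <;> rcases one_cases' α (g * g') x with h' | h' <;>
    rw [h, h'] <;> ring

/-- The product operator as a surjective linear isometry. -/
def prodIso (α : Act G) (β : G →* (Y ≃ₜ Y)) (g : G) :
    C(Cantor × Bool × Y, ℝ) ≃ₗᵢ[ℝ] C(Cantor × Bool × Y, ℝ) where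
  toFun := prodFun α β g
  invFun := prodFun α β g⁻¹
  map_add' := prodFun_add α β g
  map_smul' := prodFun_smul α β g
  left_inv F := by rw [← prodFun_mul, inv_mul_cancel, prodFun_one]
  right_inv F := by rw [← prodFun_mul, mul_inv_cancel, prodFun_one]
  norm_map' F := by
    apply le_antisymm
    · exact prodFun_norm_le α β g F
    · calc ‖F‖ = ‖prodFun α β g⁻¹ (prodFun α β g F)‖ := by
            rw [← prodFun_mul, inv_mul_cancel, prodFun_one]
        _ ≤ ‖prodFun α β g F‖ := prodFun_norm_le α β g⁻¹ _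

theorem exists_product {G : Type} [Group G] {Y : Type} [TopologicalSpace Y] [CompactSpace Y]
    (α : Act G) (β : G →* (Y ≃ₜ Y)) :
    ∃ γ : G →* (C(Cantor × Bool × Y, ℝ) ≃ₗᵢ[ℝ] C(Cantor × Bool × Y, ℝ)),
      ∀ (g : G) (F : C(Cantor × Bool × Y, ℝ)) (x : Cantor) (ε : Bool) (y : Y),
        γ g F (x, ε, y) =
          (1 + α.at g 1 x) / 2 * α.at g (slice F ε (β g⁻¹ y)) x +
          (1 - α.at g 1 x) / 2 * α.at g (slice F (!ε) (β g⁻¹ y)) x := by
  refine ⟨⟨⟨prodIso α β, ?_⟩, ?_⟩, fun g F x ε y => rfl⟩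
  · ext1 F
    exact prodFun_one α β F
  · intro g g'
    ext1 F
    exact prodFun_mul α β g g' F

end Pool.Agent.H13.Scr
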