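import Pool.Agent.H13.Scr.Opn
import Pool.Agent.H13.Scr.Product
import Pool.Agent.H13.Scr.Approx

/-!
# The certificate is a dense condition
-/

set_option autoImplicit false

noncomputable section

namespace Pool.Agent.H13.Scr

open Topology

abbrev E : Type := Cantor × Bool × M

/-- Composition with a homeomorphism as a linear isometry. -/
def pull (θ : E ≃ₜ Cantor) : CC ≃ₗᵢ[ℝ] C(E, ℝ) where
  toFun f := f.comp (θ : C(E, Cantor))
  invFun F := F.comp (θ.symm : C(Cantor, E))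
  map_add' f g := rfl
  map_smul' c f := rfl
  left_inv f := by ext x; simp
  right_inv F := by ext x; simp
  norm_map' f := by
    apply le_antisymm
    · refine (ContinuousMap.norm_le _ (norm_nonneg _)).2 fun x => ?_
      exact f.norm_coe_le_norm (θ x)
    · refine (ContinuousMap.norm_le _ (norm_nonneg _)).2 fun x => ?_
      have h := (f.comp (θ : C(E, Cantor))).norm_coe_le_norm (θ.symm x)
      simpa using h

lemma pull_apply (θ : E ≃ₜ Cantor) (f : CC) (p : E) : pull θ f p = f (θ p) := rfl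

/-- Transport of an action. -/
def transport {G : Type} [Group G] (γ : G →* (C(E, ℝ) ≃ₗᵢ[ℝ] C(E, ℝ))) (θ : E ≃ₜ Cantor) :
    Act G where
  hom :=
    { toFun := fun g => (pull θ).trans ((γ g).trans (pull θ).symm)
      map_one' := by
        ext f x
        simp
      map_mul' := fun g h => by
        ext f x
        simp [LinearIsometryEquiv.mul_def] }

lemma transport_at {G : Type} [Group G] (γ : G →* (C(E, ℝ) ≃ₗᵢ[ℝ] C(E, ℝ))) (θ : E ≃ₜ Cantor)
    (g : G) (f : CC) (p : E) : (transport γ θ).at g f (θ p) = γ g (pull θ f) p := by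
  have h : (transport γ θ).at g f = (pull θ).symm (γ g (pull θ f)) := rfl
  rw [h, ← pull_apply, LinearIsometryEquiv.apply_symm_apply]

/-- The formula of the product action. -/
def IsProd {G : Type} [Group G] (α : Act G) (β : G →* (M ≃ₜ M))
    (γ : G →* (C(E, ℝ) ≃ₗᵢ[ℝ] C(E, ℝ))) : Prop :=
  ∀ (g : G) (F : C(E, ℝ)) (x : Cantor) (ε : Bool) (y : M),
        γ g F (x, ε, y) =
          (1 + α.at g 1 x) / 2 * α.at g (slice F ε (β g⁻¹ y)) x +
          (1 - α.at g 1 x) / 2 * α.at g (slice F (!ε) (β g⁻¹ y)) x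

lemma one_cases {G : Type} [Group G] (α : Act G) (g : G) (x : Cantor) :
    α.at g 1 x = 1 ∨ α.at g 1 x = -1 := by
  have h := abs_map_one (α.at g) x
  rcases abs_cases (α.at g 1 x) with h1 | h1
  · left; rw [← h1.1, h]
  · right; linarith [h1.1, h]

lemma close_slice {G : Type} [Group G] {α : Act G} {β : G →* (M ≃ₜ M)}
    {γ : G →* (C(E, ℝ) ≃ₗᵢ[ℝ] C(E, ℝ))} (hγ : IsProd α β γ) {n : ℕ} (θ : E ≃ₜ Cantor)
    (hθ : ∀ (p : E), ∀ i < n, θ p i = p.1 i) (g : G) (f : CC) {η : ℝ} (hη : 0 ≤ η)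
    (hf : ∀ x x' : Cantor, (∀ i < n, x i = x' i) → |f x - f x'| ≤ η) (p : E) :
    |γ g (pull θ f) p - α.at g f p.1| ≤ η := by
  obtain ⟨x, ε, y⟩ := p
  have key : ∀ δ : Bool, |α.at g (slice (pull θ f) δ (β g⁻¹ y)) x - α.at g f x| ≤ η := by
    intro δ
    have h1 : ‖slice (pull θ f) δ (β g⁻¹ y) - f‖ ≤ η := by
      refine (ContinuousMap.norm_le _ hη).2 fun x' => ?_
      rw [ContinuousMap.sub_apply, slice_apply, pull_apply, Real.norm_eq_abs]
      exact hf _ _ fun i hi => hθ _ i hi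
    have h2 : ‖α.at g (slice (pull θ f) δ (β g⁻¹ y)) - α.at g f‖ ≤ η := by
      rw [← map_sub, LinearIsometryEquiv.norm_map]
      exact h1
    exact le_trans ((α.at g (slice (pull θ f) δ (β g⁻¹ y)) - α.at g f).norm_coe_le_norm x) h2
  rw [hγ g (pull θ f) x ε y]
  rcases one_cases α g x with h | h
  · rw [h]
    have h3 := key ε
    have h4 : (1 + 1 : ℝ) / 2 * α.at g (slice (pull θ f) ε (β g⁻¹ y)) x +
        (1 - 1) / 2 * α.at g (slice (pull θ f) (!ε) (β g⁻¹ y)) x =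
        α.at g (slice (pull θ f) ε (β g⁻¹ y)) x := by ring
    rw [h4]
    exact h3
  · rw [h]
    have h3 := key (!ε)
    have h4 : (1 + -1 : ℝ) / 2 * α.at g (slice (pull θ f) ε (β g⁻¹ y)) x +
        (1 - -1) / 2 * α.at g (slice (pull θ f) (!ε) (β g⁻¹ y)) x =
        α.at g (slice (pull θ f) (!ε) (β g⁻¹ y)) x := by ring
    rw [h4]
    exact h3

lemma tendsto_transport {G : Type} [Group G] {α : Act G} {β : G →* (M ≃ₜ M)}
    {γ : G →* (C(E, ℝ) ≃ₗᵢ[ℝ] C(E, ℝ))} (hγ : IsProd α β γ) (θ : ℕ → (E ≃ₜ Cantor))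
    (hθ : ∀ n, ∀ (p : E), ∀ i < n, θ n p i = p.1 i) :
    Filter.Tendsto (fun n => transport γ (θ n)) Filter.atTop (𝓝 α) := by
  refine tendsto_act fun g f => ?_
  rw [Metric.tendsto_atTop]
  intro e he
  obtain ⟨n₁, h₁⟩ := cylinder_unif f (η := e / 3) (by positivity)
  obtain ⟨n₂, h₂⟩ := cylinder_unif (α.at g f) (η := e / 3) (by positivity)
  refine ⟨max n₁ n₂, fun n hn => ?_⟩
  have hn₁ : n₁ ≤ n := le_trans (le_max_left _ _) hn
  have hn₂ : n₂ ≤ n := le_trans (le_max_right _ _) hn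
  rw [dist_eq_norm]
  refine lt_of_le_of_lt ((ContinuousMap.norm_le _ (by positivity : (0:ℝ) ≤ 2 * e / 3)).2
    fun q => ?_) (by linarith)
  obtain ⟨p, rfl⟩ := (θ n).surjective q
  rw [ContinuousMap.sub_apply, transport_at, Real.norm_eq_abs]
  have a1 := close_slice hγ (θ n) (hθ n) g f (by positivity : (0:ℝ) ≤ e / 3) (h₁ n hn₁) p
  have a2 : |α.at g f (θ n p) - α.at g f p.1| ≤ e / 3 := h₂ n hn₂ _ _ fun i hi => hθ n p i hi
  have a3 : γ g (pull (θ n) f) p - α.at g f (θ n p) =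
      (γ g (pull (θ n) f) p - α.at g f p.1) - (α.at g f (θ n p) - α.at g f p.1) := by ring
  rw [a3]
  refine le_trans (abs_sub _ _) ?_
  linarith

/-- The sign of a bit. -/
def sgn (ε : Bool) : ℝ := if ε then 1 else -1

lemma sgn_not (ε : Bool) : sgn (!ε) = -sgn ε := by cases ε <;> simp [sgn]

lemma sgn_cases (ε : Bool) : sgn ε = 1 ∨ sgn ε = -1 := by cases ε <;> simp [sgn]

/-- The function `sgn(ε) z(y)`. -/
def lift (z : C(M, ℝ)) : C(E, ℝ) :=
  ⟨fun p => sgn p.2.1 * z p.2.2, by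
    have h : Continuous sgn := continuous_of_discreteTopology
    fun_prop⟩

lemma lift_apply (z : C(M, ℝ)) (x : Cantor) (ε : Bool) (y : M) :
    lift z (x, ε, y) = sgn ε * z y := rfl

lemma prod_lift {G : Type} [Group G] {α : Act G} {β : G →* (M ≃ₜ M)}
    {γ : G →* (C(E, ℝ) ≃ₗᵢ[ℝ] C(E, ℝ))} (hγ : IsProd α β γ) (z : C(M, ℝ)) (g : G)
    (x : Cantor) (ε : Bool) (y : M) : γ g (lift z) (x, ε, y) = sgn ε * z (β g⁻¹ y) := by
  have key : ∀ δ : Bool, α.at g (slice (lift z) δ (β g⁻¹ y)) x =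
      sgn δ * z (β g⁻¹ y) * α.at g 1 x := by
    intro δ
    have h : slice (lift z) δ (β g⁻¹ y) = (sgn δ * z (β g⁻¹ y)) • (1 : CC) := by
      ext x'
      simp [slice_apply, lift_apply]
    rw [h, map_smul]
    rfl
  rw [hγ, key, key, sgn_not]
  rcases one_cases α g x with h | h <;> rw [h] <;> ring

lemma transport_certified {G : Type} [Group G] {α : Act G} {β : G →* (M ≃ₜ M)}
    {γ : G →* (C(E, ℝ) ≃ₗᵢ[ℝ] C(E, ℝ))} (hγ : IsProd α β γ) (z : C(M, ℝ)) (hz : SignValued z)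
    (g₁ g₂ : G) (havg : ∀ y, z y = (z (β g₁⁻¹ y) + z (β g₂⁻¹ y)) / 2)
    (hne : ∃ y, z (β g₁⁻¹ y) ≠ z (β g₂⁻¹ y)) (θ : E ≃ₜ Cantor) :
    transport γ θ ∈ certified g₁ g₂ := by
  refine ⟨(pull θ).symm (lift z), ?_, ?_, ?_⟩
  · intro q
    obtain ⟨⟨x, ε, y⟩, rfl⟩ := θ.surjective q
    rw [← pull_apply, LinearIsometryEquiv.apply_symm_apply, lift_apply]
    rcases sgn_cases ε with h | h <;> rcases hz y with h' | h' | h' <;> rw [h, h'] <;> norm_num
  · ext q
    obtain ⟨⟨x, ε, y⟩, rfl⟩ := θ.surjective q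
    rw [ContinuousMap.smul_apply, ContinuousMap.add_apply, transport_at, transport_at,
      LinearIsometryEquiv.apply_symm_apply, prod_lift hγ, prod_lift hγ, ← pull_apply,
      LinearIsometryEquiv.apply_symm_apply, lift_apply, havg y, smul_eq_mul]
    ring
  · intro h
    obtain ⟨y, hy⟩ := hne
    have h1 := congrArg (fun f : CC => f (θ (fun _ => true, true, y))) h
    simp only [transport_at, LinearIsometryEquiv.apply_symm_apply] at h1
    rw [prod_lift hγ, prod_lift hγ] at h1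
    simp only [sgn, if_true, one_mul] at h1
    exact hy h1

lemma transport_positive {G : Type} [Group G] {α : Act G} {β : G →* (M ≃ₜ M)}
    {γ : G →* (C(E, ℝ) ≃ₗᵢ[ℝ] C(E, ℝ))} (hγ : IsProd α β γ) (hα : α ∈ positive G)
    (θ : E ≃ₜ Cantor) : transport γ θ ∈ positive G := by
  intro g f hf
  rw [ContinuousMap.le_def]
  intro q
  obtain ⟨⟨x, ε, y⟩, rfl⟩ := θ.surjective q
  rw [transport_at, hγ]
  have h1 : α.at g 1 x = 1 := by
    have h2 : (0 : CC) ≤ α.at g 1 := hα g 1 (by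
      rw [ContinuousMap.le_def]; intro x; simp)
    have h3 : 0 ≤ α.at g 1 x := h2 x
    rcases one_cases α g x with h | h
    · exact h
    · linarith
  rw [h1]
  have h4 : (0 : CC) ≤ α.at g (slice (pull θ f) ε (β g⁻¹ y)) := hα g _ (by
    rw [ContinuousMap.le_def]
    intro x'
    exact hf (θ (x', ε, β g⁻¹ y)))
  have h5 : 0 ≤ α.at g (slice (pull θ f) ε (β g⁻¹ y)) x := h4 x
  have h6 : (1 + 1 : ℝ) / 2 * α.at g (slice (pull θ f) ε (β g⁻¹ y)) x +
        (1 - 1) / 2 * α.at g (slice (pull θ f) (!ε) (β g⁻¹ y)) x =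
        α.at g (slice (pull θ f) ε (β g⁻¹ y)) x := by ring
  rw [h6]
  exact h5

theorem dense_certified {G : Type} [Group G] (β : G →* (M ≃ₜ M)) (g₁ g₂ : G) (z : C(M, ℝ))
    (hz : SignValued z) (havg : ∀ y, z y = (z (β g₁⁻¹ y) + z (β g₂⁻¹ y)) / 2)
    (hne : ∃ y, z (β g₁⁻¹ y) ≠ z (β g₂⁻¹ y)) :
    Dense (certified g₁ g₂) ∧ Dense {α : positive G | α.1 ∈ certified g₁ g₂} := by
  choose θ hθ using exists_homeo
  constructor
  · intro α
    obtain ⟨γ, hγ⟩ := exists_product α β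
    exact mem_closure_of_tendsto (tendsto_transport (α := α) (β := β) (γ := γ) hγ θ hθ)
      (Filter.Eventually.of_forall fun n => transport_certified hγ z hz g₁ g₂ havg hne (θ n))
  · rintro ⟨α, hα⟩
    obtain ⟨γ, hγ⟩ := exists_product α β
    have h1 : Filter.Tendsto (fun n => (⟨transport γ (θ n), transport_positive hγ hα (θ n)⟩ :
        positive G)) Filter.atTop (𝓝 ⟨α, hα⟩) := by
      rw [tendsto_subtype_rng]
      exact tendsto_transport (α := α) (β := β) (γ := γ) hγ θ hθ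
    exact mem_closure_of_tendsto h1
      (Filter.Eventually.of_forall fun n => transport_certified hγ z hz g₁ g₂ havg hne (θ n))

end Pool.Agent.H13.Scr
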