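import Pool.Agent.H13.Scr.Defs

/-!
# SCR module Isom: surjective linear isometries of C(K)

Let `K` be compact, `T` a surjective linear isometry of `C(K,ℝ)`.
(a) `|T 1| = 1` everywhere.  Proof: put `f = 1 - |T 1|` (continuous, `f ≥ 0` since `‖T 1‖ ≤ 1`).  Then
    `|T 1 ± f| ≤ |T 1| + f = 1`, so `‖T 1 ± f‖ ≤ 1`, hence `‖1 ± u‖ ≤ 1` with `u = T⁻¹ f`.  At each
    point `1 + u ≤ 1` and `1 - u ≤ 1`, so `u = 0`, so `f = 0`.
(b) Put `h = T 1` and `P f = h * T f`.  `P` is linear, bijective (`P⁻¹ f = T⁻¹ (h * f)`), `P 1 = 1`,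
    and positive: for `0 ≤ f ≤ 1` one has `‖1 - f‖ ≤ 1`, so `|h - T f| ≤ 1`, so `|1 - h T f| ≤ 1`, so
    `h T f ≥ 0`.  Likewise `P⁻¹` is a linear isometry with `P⁻¹ 1 = 1`, hence positive by the same
    argument.  So `P` is an order isomorphism, hence preserves `⊓`, `⊔` and `|·|`:
    `P (f ⊓ g) = P f ⊓ P g`, `P |f| = |P f|`.
(c) If `e` takes values in `{0,1}` then `e ⊓ (1 - e) = 0`, so `P e ⊓ (1 - P e) = 0`, so `P e` takes
    values in `{0,1}`.
(d) `sign_map`: `|z|` takes values in `{0,1}`, so `|T z| = |P z| = P |z|` does.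
(e) `map_mul_of_abs_one`: first for `e` with values in `{0,1}` and `0 ≤ u ≤ c` (`c ≥ 0` constant):
    `e u = u ⊓ (c e)` so `P (e u) = P u ⊓ (c P e) = P e * P u` by (c) (note `P u ≤ c`).  By linearity
    (`u = u⁺ - u⁻` or `u = (u + c) - c`) it holds for all `u`.  For `|h'| = 1` take
    `e = (1 + h') / 2`: `P (h' u) = P h' * P u`, that is
    `T 1 * T (h' u) = T 1 * T h' * T 1 * T u`; multiply by `T 1` and use `(T 1)^2 = 1`.
-/

set_option autoImplicit false

namespace Pool.Agent.H13.Scr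

variable {K : Type} [TopologicalSpace K] [CompactSpace K]

private lemma norm_le_of {f : C(K, ℝ)} {c : ℝ} (hc : 0 ≤ c) (h : ∀ x, |f x| ≤ c) : ‖f‖ ≤ c :=
  (ContinuousMap.norm_le f hc).mpr (fun x => by rw [Real.norm_eq_abs]; exact h x)

private lemma abs_le_norm (f : C(K, ℝ)) (x : K) : |f x| ≤ ‖f‖ := by
  rw [← Real.norm_eq_abs]
  exact ContinuousMap.norm_coe_le_norm f x

theorem abs_map_one (T : C(K, ℝ) ≃ₗᵢ[ℝ] C(K, ℝ)) (x : K) : |T 1 x| = 1 := by
  have h1 : ‖(1 : C(K, ℝ))‖ ≤ 1 := norm_le_of zero_le_one (fun x => by simp)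
  have hT1 : ∀ y, |T 1 y| ≤ 1 := fun y =>
    (abs_le_norm (T 1) y).trans (by rw [T.norm_map]; exact h1)
  let f : C(K, ℝ) := ⟨fun y => 1 - |T 1 y|, by fun_prop⟩
  have hf : ∀ y, f y = 1 - |T 1 y| := fun y => rfl
  have hp : ‖T 1 + f‖ ≤ 1 := by
    refine norm_le_of zero_le_one (fun y => ?_)
    rw [ContinuousMap.add_apply, hf]
    have := hT1 y
    rcases abs_cases (T 1 y) with ⟨h, h'⟩ | ⟨h, h'⟩ <;> rw [h] at this ⊢ <;>
      rw [abs_le] <;> constructor <;> linarith
  have hm : ‖T 1 - f‖ ≤ 1 := by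
    refine norm_le_of zero_le_one (fun y => ?_)
    rw [ContinuousMap.sub_apply, hf]
    have := hT1 y
    rcases abs_cases (T 1 y) with ⟨h, h'⟩ | ⟨h, h'⟩ <;> rw [h] at this ⊢ <;>
      rw [abs_le] <;> constructor <;> linarith
  let u : C(K, ℝ) := T.symm f
  have hu : T u = f := T.apply_symm_apply f
  have hpu : ‖1 + u‖ ≤ 1 := by
    rw [← T.norm_map, map_add, hu]
    exact hp
  have hmu : ‖1 - u‖ ≤ 1 := by
    rw [← T.norm_map, map_sub, hu]
    exact hm
  have hu0 : u = 0 := by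
    ext y
    have h2 := (abs_le.mp ((abs_le_norm (1 + u) y).trans hpu)).2
    have h3 := (abs_le.mp ((abs_le_norm (1 - u) y).trans hmu)).2
    rw [ContinuousMap.add_apply, ContinuousMap.one_apply] at h2
    rw [ContinuousMap.sub_apply, ContinuousMap.one_apply] at h3
    rw [ContinuousMap.zero_apply]
    linarith
  have hf0 : f x = 0 := by
    rw [← hu, hu0, map_zero, ContinuousMap.zero_apply]
  rw [hf] at hf0
  linarith

private lemma map_one_sq (T : C(K, ℝ) ≃ₗᵢ[ℝ] C(K, ℝ)) (x : K) : T 1 x * T 1 x = 1 := by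
  have := abs_map_one T x
  rw [← abs_mul_abs_self, this, one_mul]

/-- positivity of `P f = T 1 * T f` -/
private lemma P_nonneg (T : C(K, ℝ) ≃ₗᵢ[ℝ] C(K, ℝ)) (f : C(K, ℝ)) (hf : ∀ x, 0 ≤ f x) (x : K) :
    0 ≤ T 1 x * T f x := by
  have h1 : ‖‖f‖ • (1 : C(K, ℝ)) - f‖ ≤ ‖f‖ := by
    refine norm_le_of (norm_nonneg f) (fun y => ?_)
    rw [ContinuousMap.sub_apply, ContinuousMap.smul_apply, ContinuousMap.one_apply, smul_eq_mul,
      mul_one]
    have h2 := hf y
    have h3 := (abs_le.mp (abs_le_norm f y)).2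
    rw [abs_le]
    constructor <;> linarith
  rw [← T.norm_map, map_sub, map_smul] at h1
  have h2 := (abs_le_norm _ x).trans h1
  rw [ContinuousMap.sub_apply, ContinuousMap.smul_apply, smul_eq_mul] at h2
  have h3 : |T 1 x * (‖f‖ * T 1 x - T f x)| ≤ ‖f‖ := by
    rw [abs_mul, abs_map_one, one_mul]
    exact h2
  have h4 : T 1 x * (‖f‖ * T 1 x - T f x) = ‖f‖ - T 1 x * T f x := by
    linear_combination ‖f‖ * map_one_sq T x
  rw [h4] at h3
  have := (abs_le.mp h3).2
  linarith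

/-- positivity of the inverse `Q f = T⁻¹ (T 1 * f)` -/
private lemma Q_nonneg (T : C(K, ℝ) ≃ₗᵢ[ℝ] C(K, ℝ)) (f : C(K, ℝ)) (hf : ∀ x, 0 ≤ f x) (x : K) :
    0 ≤ T.symm (T 1 * f) x := by
  have h1 : ‖T 1 * (‖f‖ • (1 : C(K, ℝ)) - f)‖ ≤ ‖f‖ := by
    refine norm_le_of (norm_nonneg f) (fun y => ?_)
    rw [ContinuousMap.mul_apply, abs_mul, abs_map_one, one_mul, ContinuousMap.sub_apply,
      ContinuousMap.smul_apply, ContinuousMap.one_apply, smul_eq_mul, mul_one]
    have h2 := hf y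
    have h3 := (abs_le.mp (abs_le_norm f y)).2
    rw [abs_le]
    constructor <;> linarith
  have h2 : T 1 * (‖f‖ • (1 : C(K, ℝ)) - f) = T (‖f‖ • (1 : C(K, ℝ)) - T.symm (T 1 * f)) := by
    rw [map_sub, map_smul, T.apply_symm_apply, mul_sub, mul_smul_comm, mul_one]
  rw [h2, T.norm_map] at h1
  have h3 := (abs_le_norm _ x).trans h1
  rw [ContinuousMap.sub_apply, ContinuousMap.smul_apply, ContinuousMap.one_apply, smul_eq_mul,
    mul_one] at h3
  have := (abs_le.mp h3).2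
  linarith

private lemma sq_one (T : C(K, ℝ) ≃ₗᵢ[ℝ] C(K, ℝ)) : T 1 * T 1 = 1 := by
  ext x
  rw [ContinuousMap.mul_apply, map_one_sq, ContinuousMap.one_apply]

/-- the order isomorphism `P f = T 1 * T f` -/
private noncomputable def P (T : C(K, ℝ) ≃ₗᵢ[ℝ] C(K, ℝ)) : C(K, ℝ) ≃o C(K, ℝ) where
  toFun f := T 1 * T f
  invFun f := T.symm (T 1 * f)
  left_inv f := by
    change T.symm (T 1 * (T 1 * T f)) = f
    rw [← mul_assoc, sq_one, one_mul, T.symm_apply_apply]
  right_inv f := by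
    change T 1 * T (T.symm (T 1 * f)) = f
    rw [T.apply_symm_apply, ← mul_assoc, sq_one, one_mul]
  map_rel_iff' := by
    intro f g
    change T 1 * T f ≤ T 1 * T g ↔ f ≤ g
    constructor
    · intro h
      rw [ContinuousMap.le_def] at h ⊢
      intro x
      have h1 := Q_nonneg T (T 1 * T g - T 1 * T f) (fun y => by
        have := h y
        rw [ContinuousMap.sub_apply]
        linarith) x
      rw [← mul_sub, ← mul_assoc, sq_one, one_mul, ← map_sub, T.symm_apply_apply,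
        ContinuousMap.sub_apply] at h1
      linarith
    · intro h
      rw [ContinuousMap.le_def] at h ⊢
      intro x
      have h1 := P_nonneg T (g - f) (fun y => by
        have := h y
        rw [ContinuousMap.sub_apply]
        linarith) x
      rw [map_sub, ContinuousMap.sub_apply] at h1
      rw [ContinuousMap.mul_apply, ContinuousMap.mul_apply]
      linarith

private lemma P_apply (T : C(K, ℝ) ≃ₗᵢ[ℝ] C(K, ℝ)) (f : C(K, ℝ)) : P T f = T 1 * T f := rfl

private lemma P_apply' (T : C(K, ℝ) ≃ₗᵢ[ℝ] C(K, ℝ)) (f : C(K, ℝ)) (x : K) :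
    P T f x = T 1 x * T f x := rfl

private lemma P_add (T : C(K, ℝ) ≃ₗᵢ[ℝ] C(K, ℝ)) (f g : C(K, ℝ)) : P T (f + g) = P T f + P T g := by
  simp only [P_apply, map_add, mul_add]

private lemma P_sub (T : C(K, ℝ) ≃ₗᵢ[ℝ] C(K, ℝ)) (f g : C(K, ℝ)) : P T (f - g) = P T f - P T g := by
  simp only [P_apply, map_sub, mul_sub]

private lemma P_neg (T : C(K, ℝ) ≃ₗᵢ[ℝ] C(K, ℝ)) (f : C(K, ℝ)) : P T (-f) = -P T f := by
  simp only [P_apply, map_neg, mul_neg]

private lemma P_smul (T : C(K, ℝ) ≃ₗᵢ[ℝ] C(K, ℝ)) (c : ℝ) (f : C(K, ℝ)) :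
    P T (c • f) = c • P T f := by
  simp only [P_apply, map_smul, mul_smul_comm]

private lemma P_one (T : C(K, ℝ) ≃ₗᵢ[ℝ] C(K, ℝ)) : P T 1 = 1 := by
  rw [P_apply, sq_one]

private lemma P_abs (T : C(K, ℝ) ≃ₗᵢ[ℝ] C(K, ℝ)) (f : C(K, ℝ)) : P T |f| = |P T f| := by
  unfold abs
  rw [map_sup, P_neg]

private lemma P_idem (T : C(K, ℝ) ≃ₗᵢ[ℝ] C(K, ℝ)) (e : C(K, ℝ)) (he : ∀ x, e x = 0 ∨ e x = 1)
    (x : K) : P T e x = 0 ∨ P T e x = 1 := by
  have h1 : e ⊓ (1 - e) = 0 := by
    ext y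
    rw [ContinuousMap.inf_apply, ContinuousMap.sub_apply, ContinuousMap.one_apply,
      ContinuousMap.zero_apply]
    rcases he y with h | h <;> rw [h] <;> norm_num
  have h2 : P T e ⊓ (1 - P T e) = 0 := by
    rw [← P_one T, ← P_sub, ← map_inf, h1]
    have := P_smul T 0 (0 : C(K, ℝ))
    rw [zero_smul, zero_smul] at this
    exact this
  have h3 : min (P T e x) (1 - P T e x) = 0 := by
    have := congrArg (fun f : C(K, ℝ) => f x) h2
    simpa using this
  rcases min_choice (P T e x) (1 - P T e x) with h | h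
  · left; rw [← h]; exact h3
  · right; rw [h] at h3; linarith

theorem sign_map (T : C(K, ℝ) ≃ₗᵢ[ℝ] C(K, ℝ)) (z : C(K, ℝ)) (hz : SignValued z) :
    SignValued (T z) := by
  intro x
  have h1 : ∀ y, |z| y = 0 ∨ |z| y = 1 := by
    intro y
    rw [ContinuousMap.abs_apply]
    rcases hz y with h | h | h <;> rw [h] <;> norm_num
  have h2 := P_idem T |z| h1 x
  rw [P_abs, ContinuousMap.abs_apply, P_apply', abs_mul, abs_map_one, one_mul] at h2
  rcases h2 with h | h
  · left; exact abs_eq_zero.mp h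
  · right; exact (abs_eq zero_le_one).mp h

private lemma P_mul_idem_pos (T : C(K, ℝ) ≃ₗᵢ[ℝ] C(K, ℝ)) (e u : C(K, ℝ))
    (he : ∀ x, e x = 0 ∨ e x = 1) (c : ℝ) (h0 : ∀ x, 0 ≤ u x) (h1 : ∀ x, u x ≤ c) (x : K) :
    P T (e * u) x = P T e x * P T u x := by
  have h2 : e * u = u ⊓ (c • e) := by
    ext y
    rw [ContinuousMap.mul_apply, ContinuousMap.inf_apply, ContinuousMap.smul_apply, smul_eq_mul]
    rcases he y with h | h
    · rw [h, zero_mul, mul_zero, inf_eq_right.mpr (h0 y)]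
    · rw [h, one_mul, mul_one, inf_eq_left.mpr (h1 y)]
  rw [h2, map_inf, P_smul, ContinuousMap.inf_apply, ContinuousMap.smul_apply, smul_eq_mul]
  have h3 : 0 ≤ P T u x := P_nonneg T u h0 x
  have h4 : P T u x ≤ c := by
    have h5 : P T u ≤ P T (c • (1 : C(K, ℝ))) := by
      refine (P T).monotone ?_
      rw [ContinuousMap.le_def]
      intro y
      rw [ContinuousMap.smul_apply, ContinuousMap.one_apply, smul_eq_mul, mul_one]
      exact h1 y
    rw [P_smul, P_one, ContinuousMap.le_def] at h5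
    have := h5 x
    rwa [ContinuousMap.smul_apply, ContinuousMap.one_apply, smul_eq_mul, mul_one] at this
  rcases P_idem T e he x with h | h
  · rw [h, zero_mul, mul_zero, inf_eq_right.mpr h3]
  · rw [h, one_mul, mul_one, inf_eq_left.mpr h4]

private lemma P_mul_idem (T : C(K, ℝ) ≃ₗᵢ[ℝ] C(K, ℝ)) (e u : C(K, ℝ))
    (he : ∀ x, e x = 0 ∨ e x = 1) (x : K) :
    P T (e * u) x = P T e x * P T u x := by
  have h1 := P_mul_idem_pos T e (u + ‖u‖ • (1 : C(K, ℝ))) he (2 * ‖u‖)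
    (fun y => by
      rw [ContinuousMap.add_apply, ContinuousMap.smul_apply, ContinuousMap.one_apply, smul_eq_mul,
        mul_one]
      have := (abs_le.mp (abs_le_norm u y)).1
      linarith)
    (fun y => by
      rw [ContinuousMap.add_apply, ContinuousMap.smul_apply, ContinuousMap.one_apply, smul_eq_mul,
        mul_one]
      have := (abs_le.mp (abs_le_norm u y)).2
      linarith) x
  rw [mul_add, mul_smul_comm, mul_one, P_add, P_add, P_smul, P_smul, P_one,
    ContinuousMap.add_apply, ContinuousMap.add_apply, ContinuousMap.smul_apply,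
    ContinuousMap.smul_apply, ContinuousMap.one_apply, smul_eq_mul, smul_eq_mul] at h1
  linarith

theorem map_mul_of_abs_one (T : C(K, ℝ) ≃ₗᵢ[ℝ] C(K, ℝ)) (h u : C(K, ℝ)) (hh : ∀ x, |h x| = 1)
    (x : K) : T (h * u) x = T 1 x * T h x * T u x := by
  let e : C(K, ℝ) := (1 / 2 : ℝ) • (1 + h)
  have he : ∀ y, e y = 0 ∨ e y = 1 := by
    intro y
    have h1 : e y = 1 / 2 * (1 + h y) := by
      change ((1 / 2 : ℝ) • (1 + h)) y = _
      rw [ContinuousMap.smul_apply, ContinuousMap.add_apply, ContinuousMap.one_apply, smul_eq_mul]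
    rw [h1]
    rcases (abs_eq zero_le_one).mp (hh y) with h2 | h2 <;> rw [h2] <;> norm_num
  have hhe : h = (2 : ℝ) • e - 1 := by
    ext y
    change h y = (2 : ℝ) * ((1 / 2 : ℝ) * (1 + h y)) - 1
    ring
  have h1 := P_mul_idem T e u he x
  have h2 : P T (h * u) x = P T h x * P T u x := by
    have h3 : P T (h * u) x = 2 * P T (e * u) x - P T u x := by
      conv_lhs => rw [hhe]
      rw [sub_mul, one_mul, smul_mul_assoc, P_sub, P_smul, ContinuousMap.sub_apply,
        ContinuousMap.smul_apply, smul_eq_mul]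
    have h4 : P T h x = 2 * P T e x - 1 := by
      conv_lhs => rw [hhe]
      rw [P_sub, P_smul, P_one, ContinuousMap.sub_apply,
        ContinuousMap.smul_apply, smul_eq_mul, ContinuousMap.one_apply]
    rw [h3, h4, h1]
    ring
  rw [P_apply', P_apply', P_apply'] at h2
  have h3 := map_one_sq T x
  linear_combination (T 1 x) * h2 + (T 1 x * T h x * T u x - T (h * u) x) * h3

end Pool.Agent.H13.Scr
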