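import Pool.Agent.H13.Scr.Defs

/-!
# SCR module System: the system with an exactly harmonic function with values in {0, 1, -1}

`M = Cantor × Bool`.  Let `σ : Cantor ≃ₜ Cantor` be (prefix replacement, `0 = false`, `1 = true`)
`σ(0,1,w) = (0,w)`, `σ(0,0,w) = (1,0,w)`, `σ(1,w) = (1,1,w)`;
its inverse is `(0,w) ↦ (0,1,w)`, `(1,0,w) ↦ (0,0,w)`, `(1,1,w) ↦ (1,w)`.
Coordinatewise: if `x 0 = 0, x 1 = 1`: `(σ x) 0 = 0`, `(σ x) n = x (n+1)` for `n ≥ 1`;
if `x 0 = 0, x 1 = 0`: `(σ x) 0 = 1`, `(σ x) n = x n` for `n ≥ 1`;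
if `x 0 = 1`: `(σ x) 0 = 1`, `(σ x) 1 = 1`, `(σ x) n = x (n-1)` for `n ≥ 2`.
Let `P = {x 0 = 0}`, `D = {x 0 = 0, x 1 = 0}`.  Then `x ∈ P \ D ⇒ σ x ∈ P`, `x ∈ D ⇒ σ x ∉ P`,
`x ∉ P ⇒ σ x ∉ P`.
`S (x,b) = (σ x, b)`, `T (x,b) = (x, b xor [x ∈ D])`, `z (x,b) = 0` if `x ∈ P`, and for `x ∉ P`
`z (x,b) = 1` if `b = 0` and `z (x,b) = -1` if `b = 1`.
* `z_avg`: `x ∈ P \ D`: all three values are `0`; `x ∈ D`: `z y = 0` and the two values are `1` and
  `-1` in some order; `x ∉ P`: all three values are equal (`T y = y`).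
* `z_ne`: take `x ∈ D`.
* `((S^i)⁻¹ * T * S^i) (x,b) = (x, b xor [σ^i x ∈ D])`, and these maps commute.
-/

set_option autoImplicit false

namespace Pool.Agent.H13.Scr

/-- the map `σ` -/
def sigF (x : Cantor) : Cantor := fun n =>
  if x 0 then (if n = 0 then true else x (n - 1))
  else if x 1 then (if n = 0 then false else x (n + 1))
  else (if n = 0 then true else x n)

/-- the inverse of `σ` -/
def sigG (x : Cantor) : Cantor := fun n =>
  if x 0 then (if x 1 then x (n + 1) else (if n = 0 then false else x n))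
  else (if n = 0 then false else if n = 1 then true else x (n - 1))

lemma continuous_of_coords (n : ℕ) (F : Bool × Bool × Bool × Bool × Bool → Bool) :
    Continuous (fun x : Cantor => F (x 0, x 1, x (n - 1), x n, x (n + 1))) :=
  (continuous_of_discreteTopology (f := F)).comp (by fun_prop)

lemma continuous_sigF : Continuous sigF := by
  refine continuous_pi fun n => ?_
  exact continuous_of_coords n fun p =>
    if p.1 then (if n = 0 then true else p.2.2.1)
    else if p.2.1 then (if n = 0 then false else p.2.2.2.2)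
    else (if n = 0 then true else p.2.2.2.1)

lemma continuous_sigG : Continuous sigG := by
  refine continuous_pi fun n => ?_
  exact continuous_of_coords n fun p =>
    if p.1 then (if p.2.1 then p.2.2.2.2 else (if n = 0 then false else p.2.2.2.1))
    else (if n = 0 then false else if n = 1 then true else p.2.2.1)

lemma sigG_sigF (x : Cantor) : sigG (sigF x) = x := by
  funext n
  rcases n with _ | _ | n
  · cases h0 : x 0 <;> cases h1 : x 1 <;> simp [sigG, sigF, h0, h1]
  · cases h0 : x 0 <;> cases h1 : x 1 <;> simp [sigG, sigF, h0, h1]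
  · cases h0 : x 0 <;> cases h1 : x 1 <;> simp [sigG, sigF, h0, h1]

lemma sigF_sigG (x : Cantor) : sigF (sigG x) = x := by
  funext n
  rcases n with _ | _ | n
  · cases h0 : x 0 <;> cases h1 : x 1 <;> simp [sigG, sigF, h0, h1]
  · cases h0 : x 0 <;> cases h1 : x 1 <;> simp [sigG, sigF, h0, h1]
  · cases h0 : x 0 <;> cases h1 : x 1 <;> simp [sigG, sigF, h0, h1]

/-- the homeomorphism `σ` -/
def sig : Cantor ≃ₜ Cantor where
  toFun := sigF
  invFun := sigG
  left_inv := sigG_sigF
  right_inv := sigF_sigG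
  continuous_toFun := continuous_sigF
  continuous_invFun := continuous_sigG

/-- the indicator of `D` -/
def inD (x : Cantor) : Bool := !(x 0) && !(x 1)

lemma continuous_inD : Continuous inD :=
  (continuous_of_discreteTopology (f := fun p : Bool × Bool => !p.1 && !p.2)).comp
    (by fun_prop : Continuous fun x : Cantor => (x 0, x 1))

/-- flip of the second coordinate along `D` -/
def flipF (y : M) : M := (y.1, xor y.2 (inD y.1))

lemma continuous_flipF : Continuous flipF := by
  refine continuous_fst.prodMk ?_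
  exact (continuous_of_discreteTopology (f := fun p : Bool × Bool => xor p.1 p.2)).comp
    (continuous_snd.prodMk (continuous_inD.comp continuous_fst))

lemma flipF_flipF (y : M) : flipF (flipF y) = y := by
  simp [flipF]

/-- the homeomorphism `T` -/
def flipH : M ≃ₜ M where
  toFun := flipF
  invFun := flipF
  left_inv := flipF_flipF
  right_inv := flipF_flipF
  continuous_toFun := continuous_flipF
  continuous_invFun := continuous_flipF

/-- the homeomorphism `S` -/
def shiftH : M ≃ₜ M := sig.prodCongr (Homeomorph.refl Bool)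

lemma shiftH_apply (y : M) : shiftH y = (sigF y.1, y.2) := rfl

lemma flipH_apply (y : M) : flipH y = (y.1, xor y.2 (inD y.1)) := rfl

lemma shiftH_pow_apply (i : ℕ) (y : M) : (shiftH ^ i) y = (sigF^[i] y.1, y.2) := by
  induction i generalizing y with
  | zero => rfl
  | succ i ih =>
    rw [pow_succ, Homeomorph.mul_apply, ih, shiftH_apply, Function.iterate_succ_apply]

lemma conj_apply (i : ℕ) (y : M) :
    ((shiftH ^ i)⁻¹ * flipH * shiftH ^ i) y = (y.1, xor y.2 (inD (sigF^[i] y.1))) := by
  have h : (shiftH ^ i) (((shiftH ^ i)⁻¹ * flipH * shiftH ^ i) y) =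
      (shiftH ^ i) (y.1, xor y.2 (inD (sigF^[i] y.1))) := by
    rw [← Homeomorph.mul_apply, ← mul_assoc, mul_inv_cancel_left, Homeomorph.mul_apply,
      shiftH_pow_apply, shiftH_pow_apply, flipH_apply]
  exact (shiftH ^ i).injective h

/-- the function `z` -/
noncomputable def zF (y : M) : ℝ := if y.1 0 then (if y.2 then -1 else 1) else 0

lemma continuous_zF : Continuous zF :=
  (continuous_of_discreteTopology
    (f := fun p : Bool × Bool => if p.1 then (if p.2 then (-1 : ℝ) else 1) else 0)).comp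
    (by fun_prop : Continuous fun y : M => (y.1 0, y.2))

theorem exists_system : ∃ (S T : M ≃ₜ M) (z : C(M, ℝ)), SignValued z ∧
    (∀ y, z y = (z (S y) + z (S (T y))) / 2) ∧ (∃ y, z (S y) ≠ z (S (T y))) ∧ T * T = 1 ∧
    ∀ i j : ℕ, Commute ((S ^ i)⁻¹ * T * S ^ i) ((S ^ j)⁻¹ * T * S ^ j) := by
  refine ⟨shiftH, flipH, ⟨zF, continuous_zF⟩, ?_, ?_, ?_, ?_, ?_⟩
  · intro y
    change zF y = 0 ∨ zF y = 1 ∨ zF y = -1
    unfold zF
    cases y.1 0 <;> cases y.2 <;> simp
  · intro y
    change zF y = (zF (shiftH y) + zF (shiftH (flipH y))) / 2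
    rw [shiftH_apply, shiftH_apply, flipH_apply]
    simp only [zF]
    cases h0 : y.1 0 <;> cases h1 : y.1 1 <;> cases h2 : y.2 <;>
      simp [sigF, inD, h0, h1]
  · refine ⟨((fun _ => false), false), ?_⟩
    change zF (shiftH ((fun _ => false), false)) ≠ zF (shiftH (flipH ((fun _ => false), false)))
    rw [shiftH_apply, shiftH_apply, flipH_apply]
    simp only [zF, sigF, inD]
    norm_num
  · ext y : 1
    exact flipF_flipF y
  · intro i j
    ext y : 1
    change ((shiftH ^ i)⁻¹ * flipH * shiftH ^ i) (((shiftH ^ j)⁻¹ * flipH * shiftH ^ j) y) =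
      ((shiftH ^ j)⁻¹ * flipH * shiftH ^ j) (((shiftH ^ i)⁻¹ * flipH * shiftH ^ i) y)
    simp only [conj_apply]
    rw [Bool.xor_assoc, Bool.xor_assoc, Bool.xor_comm (inD _) (inD _)]

end Pool.Agent.H13.Scr
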