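import Pool.Agent.H13.Scr.Dns
import Pool.Agent.H13.Scr.Amen
import Pool.Agent.H13.Scr.System
import Pool.Agent.H13.Scr.BaireAct

/-!
# A countable amenable group whose generic actions admit no invariant strictly convex renorming
-/

set_option autoImplicit false

namespace Pool.Agent.H13.Scr

open Topology

/-- The trivial action. -/
lemma one_mem_positive (G : Type) [Group G] : (⟨1⟩ : Act G) ∈ positive G := by
  intro g f hf
  exact hf

theorem main : ∃ (G : Type) (_ : Group G), Countable G ∧ Amenable G ∧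
    (∃ U : Set (Act G), IsOpen U ∧ Dense U ∧ ∀ α ∈ U, ¬ Renormable α) ∧
    (∃ U : Set (positive G), IsOpen U ∧ Dense U ∧ ∀ α ∈ U, ¬ Renormable α.1) ∧
    {α : Act G | Renormable α} ∉ residual (Act G) ∧
    {α : positive G | Renormable α.1} ∉ residual (positive G) := by
  obtain ⟨S, T, z, hz, havg, hne, hT, hc⟩ := exists_system
  let H : Subgroup (M ≃ₜ M) := Subgroup.closure {S, T}
  let s : H := ⟨S, Subgroup.subset_closure (by simp)⟩
  let t : H := ⟨T, Subgroup.subset_closure (by simp)⟩
  have hgen : Subgroup.closure {s, t} = ⊤ := by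
    rw [eq_top_iff]
    rintro ⟨x, hx⟩ -
    induction hx using Subgroup.closure_induction with
    | mem x hx =>
      rcases hx with rfl | hx
      · exact Subgroup.subset_closure (Or.inl rfl)
      · rw [Set.mem_singleton_iff] at hx
        subst hx
        exact Subgroup.subset_closure (Or.inr rfl)
    | one => exact Subgroup.one_mem _
    | mul x y hx hy h1 h2 => exact Subgroup.mul_mem _ h1 h2
    | inv x hx h1 => exact Subgroup.inv_mem _ h1
  have hcount : Countable H := by
    have h1 : Countable ({S, T} : Set (M ≃ₜ M)) := (Set.toFinite _).countable.to_subtype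
    have h2 : ((Subgroup.closure {S, T} : Subgroup (M ≃ₜ M)) : Set (M ≃ₜ M)).Countable := by
      rw [FreeGroup.closure_eq_range, MonoidHom.coe_range]
      exact Set.countable_range _
    exact h2.to_subtype
  have ht : t * t = 1 := Subtype.ext hT
  have hcomm : ∀ i j : ℕ, Commute ((s ^ i)⁻¹ * t * s ^ i) ((s ^ j)⁻¹ * t * s ^ j) := fun i j =>
    Subtype.ext (hc i j)
  have havg' : ∀ y, z y = (z (H.subtype (s⁻¹)⁻¹ y) + z (H.subtype ((s * t)⁻¹)⁻¹ y)) / 2 := by
    intro y
    rw [inv_inv, inv_inv]
    exact havg y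
  have hne' : ∃ y, z (H.subtype (s⁻¹)⁻¹ y) ≠ z (H.subtype ((s * t)⁻¹)⁻¹ y) := by
    obtain ⟨y, hy⟩ := hne
    refine ⟨y, ?_⟩
    rw [inv_inv, inv_inv]
    exact hy
  obtain ⟨d1, d2⟩ := dense_certified H.subtype (s⁻¹) ((s * t)⁻¹) z hz havg' hne'
  have o1 : IsOpen (certified (s⁻¹) ((s * t)⁻¹)) := isOpen_certified _ _
  have o2 : IsOpen {α : positive H | α.1 ∈ certified (s⁻¹) ((s * t)⁻¹)} :=
    o1.preimage continuous_subtype_val
  refine ⟨H, inferInstance, hcount, amenable_of_commuting s t hgen ht hcomm,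
    ⟨_, o1, d1, fun α hα => not_renormable hα⟩, ⟨_, o2, d2, fun α hα => not_renormable hα⟩, ?_, ?_⟩
  · intro h
    have hB := baire_act H
    have hN : Nonempty (Act H) := ⟨⟨1⟩⟩
    have hd := dense_of_mem_residual h
    obtain ⟨α, h1, h2⟩ := hd.inter_open_nonempty _ o1 d1.nonempty
    exact not_renormable h1 h2
  · intro h
    have hB := baire_positive H
    have hN : Nonempty (positive H) := ⟨⟨⟨1⟩, one_mem_positive H⟩⟩
    have hd := dense_of_mem_residual h
    obtain ⟨α, h1, h2⟩ := hd.inter_open_nonempty _ o2 d2.nonempty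
    exact not_renormable h1 h2

end Pool.Agent.H13.Scr
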