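import Pool.Agent.H13.Scr.Isom

/-!
# The certificate is an open condition and excludes renormings
-/

set_option autoImplicit false

namespace Pool.Agent.H13.Scr

open Topology

lemma continuous_at {G : Type} [Group G] (g : G) (f : CC) :
    Continuous (fun α : Act G => α.at g f) := by
  have h : Continuous (fun α : Act G => fun (g : G) (f : CC) => α.at g f) := continuous_induced_dom
  exact (continuous_apply f).comp ((continuous_apply g).comp h)

lemma tendsto_act {G ι : Type} [Group G] {l : Filter ι} {a : ι → Act G} {α : Act G}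
    (h : ∀ g f, Filter.Tendsto (fun i => (a i).at g f) l (𝓝 (α.at g f))) :
    Filter.Tendsto a l (𝓝 α) := by
  rw [nhds_induced, Filter.tendsto_comap_iff, tendsto_pi_nhds]
  intro g
  rw [tendsto_pi_nhds]
  intro f
  exact h g f

/-- Two sign valued functions at distance less than one are equal. -/
lemma sign_eq {z w : CC} (hz : SignValued z) (hw : SignValued w) (h : ‖z - w‖ < 1) : z = w := by
  ext x
  have h1 : |z x - w x| < 1 := lt_of_le_of_lt ((z - w).norm_coe_le_norm x) h
  rw [abs_lt] at h1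
  rcases hz x with h2 | h2 | h2 <;> rcases hw x with h3 | h3 | h3 <;> rw [h2, h3] at h1 ⊢ <;>
    norm_num at h1

theorem isOpen_certified {G : Type} [Group G] (g₁ g₂ : G) : IsOpen (certified g₁ g₂) := by
  rw [isOpen_iff_mem_nhds]
  rintro α ⟨z, hz, havg, hne⟩
  have h1 : {α' : Act G | ‖α'.at g₁ z - α.at g₁ z‖ < 1} ∈ 𝓝 α := by
    have h0 : Continuous (fun α' : Act G => ‖α'.at g₁ z - α.at g₁ z‖) :=
      ((continuous_at g₁ z).sub continuous_const).norm
    exact (isOpen_Iio.preimage h0).mem_nhds (by simp)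
  have h2 : {α' : Act G | ‖α'.at g₂ z - α.at g₂ z‖ < 1} ∈ 𝓝 α := by
    have h0 : Continuous (fun α' : Act G => ‖α'.at g₂ z - α.at g₂ z‖) :=
      ((continuous_at g₂ z).sub continuous_const).norm
    exact (isOpen_Iio.preimage h0).mem_nhds (by simp)
  filter_upwards [h1, h2] with α' h3 h4
  have e1 : α'.at g₁ z = α.at g₁ z := sign_eq (sign_map _ _ hz) (sign_map _ _ hz) h3
  have e2 : α'.at g₂ z = α.at g₂ z := sign_eq (sign_map _ _ hz) (sign_map _ _ hz) h4
  refine ⟨z, hz, ?_, ?_⟩
  · rw [e1, e2]; exact havg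
  · rw [e1, e2]; exact hne

theorem not_renormable {G : Type} [Group G] {g₁ g₂ : G} {α : Act G} (h : α ∈ certified g₁ g₂) :
    ¬ Renormable α := by
  obtain ⟨z, -, havg, hne⟩ := h
  rintro ⟨N, hN, hinv⟩
  have h1 := hN.strict (α.at g₁ z) (α.at g₂ z) hne (by rw [hinv, hinv])
  rw [← havg, hinv] at h1
  exact lt_irrefl _ h1

end Pool.Agent.H13.Scr
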